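import Pool.Agent.X39.Near.Sing
import Pool.Agent.X255.RH.LogR

/-!
# Four exponentials at ALL rational points close to any real number outside a set of dimension zero

Let `p_1, …, p_s` be rational polynomials, multiplicatively independent modulo constants (for instance different monic
irreducible polynomials), and `q_1, …, q_g` positive rational numbers. For rational `z` consider the positive rational
numbers `∏ q_b ^ m_b ∏ |p_k (z)| ^ n_k` with integral exponents. We prove: outside ONE set `E` of real numbers of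
Hausdorff dimension `0` (for all `p`, `q`, all scales and all exponents), for every real `x`, all `ω > 0` and `k`, for all
large `T` and ALL rational `z` with numerator and denominator at most `T` and `|z - x| ≤ T ^ (-ω)`: the four exponentials
conjecture is true for all `2 × 2` matrices of such numbers with exponents at most `T ^ k`, not all `n` equal to `0`. In
particular, for every `2 × 2` matrix of rational functions with rational coefficients, positive at `x` and not all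
constant, it is true for the values at all such `z`, for instance at the convergents of `x` from some point on.

Proof: the numbers `log |p_k (z)|` satisfy no relation of bounded complexity, with coefficients in a given finitely generated
ring (`Pool.Agent.X39.Near`), so the determinant vanishes identically as a polynomial in the `log |p_k (z)|`; a matrix
`N = (n_ij)` of rank one of the family gives rational vectors `u`, `v` with `uᵗ M v = 0`, and then the rows or the columns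
of the singular `2 × 2` matrix `M` are dependent.
-/

set_option autoImplicit false

open Polynomial MeasureTheory NumberField

namespace Pool.Agent.Results.MP_bbc1fa_nt.ApproximationsOfAllNumbers

open Pool.Agent.X39.Near (Size)

/-- The four exponentials conjecture for the matrix `log (a i j)`: if the rows are linearly independent over `ℚ` and the
columns are linearly independent over `ℚ`, then the matrix has rank `2`. -/
def FourExponentials (a : Fin 2 → Fin 2 → ℝ) : Prop :=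
  (∀ r s : ℚ, (∀ j, (r : ℝ) * Real.log (a 0 j) + s * Real.log (a 1 j) = 0) → r = 0 ∧ s = 0) →
  (∀ r s : ℚ, (∀ i, (r : ℝ) * Real.log (a i 0) + s * Real.log (a i 1) = 0) → r = 0 ∧ s = 0) →
  Real.log (a 0 0) * Real.log (a 1 1) - Real.log (a 0 1) * Real.log (a 1 0) ≠ 0

/-- the rational polynomials are multiplicatively independent modulo constants -/
def Independent {s : ℕ} (p : Fin s → ℚ[X]) : Prop :=
  ∀ (m n : Fin s → ℕ) (c : ℚ), ∏ k, p k ^ m k = C c * ∏ k, p k ^ n k → m = n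

/-- the number `∏ q_b ^ m_b ∏ |p_k (z)| ^ n_k` -/
noncomputable def number {g s : ℕ} (q : Fin g → ℚ) (p : Fin s → ℚ[X]) (z : ℚ) (m : Fin g → ℤ) (n : Fin s → ℤ) : ℚ :=
  (∏ b, q b ^ m b) * ∏ k, |(p k).eval z| ^ n k

/-- a singular `2 × 2` matrix with a zero coefficient -/
theorem rank_one {m00 m01 m10 m11 u0 u1 v0 v1 : ℝ} (hdet : m00 * m11 = m01 * m10)
    (h : (u0 * m00 + u1 * m10) * v0 + (u0 * m01 + u1 * m11) * v1 = 0) :
    (u0 * m00 + u1 * m10 = 0 ∧ u0 * m01 + u1 * m11 = 0) ∨ (m00 * v0 + m01 * v1 = 0 ∧ m10 * v0 + m11 * v1 = 0) := by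
  have e1 : (u0 * m00 + u1 * m10) * (m00 * v0 + m01 * v1) = 0 := by linear_combination m00 * h - u1 * v1 * hdet
  have e2 : (u0 * m00 + u1 * m10) * (m10 * v0 + m11 * v1) = 0 := by linear_combination m10 * h + u0 * v1 * hdet
  have e3 : (u0 * m01 + u1 * m11) * (m00 * v0 + m01 * v1) = 0 := by linear_combination m01 * h + u1 * v0 * hdet
  have e4 : (u0 * m01 + u1 * m11) * (m10 * v0 + m11 * v1) = 0 := by linear_combination m11 * h - u0 * v0 * hdet
  by_cases h1 : u0 * m00 + u1 * m10 = 0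
  · by_cases h2 : u0 * m01 + u1 * m11 = 0
    · exact Or.inl ⟨h1, h2⟩
    · exact Or.inr ⟨(mul_eq_zero.1 e3).resolve_left h2, (mul_eq_zero.1 e4).resolve_left h2⟩
  · exact Or.inr ⟨(mul_eq_zero.1 e1).resolve_left h1, (mul_eq_zero.1 e2).resolve_left h1⟩

/-- a pencil of singular matrices -/
theorem pencil {a : Fin 2 → Fin 2 → ℝ} (n : Fin 2 → Fin 2 → ℤ) (hn : n ≠ 0) (hdet : Real.log (a 0 0) * Real.log (a 1 1) -
      Real.log (a 0 1) * Real.log (a 1 0) = 0)
    (h : ∀ t : ℝ, (Real.log (a 0 0) + t * n 0 0) * (Real.log (a 1 1) + t * n 1 1) -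
      (Real.log (a 0 1) + t * n 0 1) * (Real.log (a 1 0) + t * n 1 0) = 0)
    (h1 : ∀ r s : ℚ, (∀ j, (r : ℝ) * Real.log (a 0 j) + s * Real.log (a 1 j) = 0) → r = 0 ∧ s = 0)
    (h2 : ∀ r s : ℚ, (∀ i, (r : ℝ) * Real.log (a i 0) + s * Real.log (a i 1) = 0) → r = 0 ∧ s = 0) : False := by
  set m00 := Real.log (a 0 0)
  set m01 := Real.log (a 0 1)
  set m10 := Real.log (a 1 0)
  set m11 := Real.log (a 1 1)
  have hN : (n 0 0 : ℝ) * n 1 1 = n 0 1 * n 1 0 := by linear_combination (h 1 + h (-1) - 2 * hdet) / 2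
  have hb : m00 * n 1 1 + m11 * n 0 0 - m01 * n 1 0 - m10 * n 0 1 = 0 := by
    linear_combination (h 1 - h (-1)) / 2
  have hd : m00 * m11 = m01 * m10 := by linear_combination hdet
  -- the vectors
  have key : ∀ u0 u1 v0 v1 : ℤ, ¬ (u0 = 0 ∧ u1 = 0) → ¬ (v0 = 0 ∧ v1 = 0) →
      ((u0 : ℝ) * m00 + u1 * m10) * v0 + (u0 * m01 + u1 * m11) * v1 = 0 → False := by
    intro u0 u1 v0 v1 hu hv huv
    rcases rank_one hd huv with ⟨e1, e2⟩ | ⟨e1, e2⟩
    · apply hu
      have e3 := h1 u0 u1 (Fin.forall_fin_two.2 ⟨by simpa using e1, by simpa using e2⟩)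
      exact_mod_cast e3
    · apply hv
      have e3 := h2 v0 v1 (Fin.forall_fin_two.2
        ⟨by simp only [Rat.cast_intCast]; linear_combination e1, by simp only [Rat.cast_intCast]; linear_combination e2⟩)
      exact_mod_cast e3
  have hex : ∃ i j, n i j ≠ 0 := by
    by_contra hcon
    push Not at hcon
    exact hn (funext fun i => funext fun j => hcon i j)
  obtain ⟨i, j, hij⟩ := hex
  fin_cases i <;> fin_cases j
  · simp only [Fin.zero_eta, Fin.isValue] at hij
    refine key (-n 1 0) (n 0 0) (-n 0 1) (n 0 0) (by omega) (by omega) ?_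
    push_cast
    linear_combination (n 0 0 : ℝ) * hb - m00 * hN
  · simp only [Fin.zero_eta, Fin.isValue, Fin.mk_one] at hij
    refine key (-n 1 1) (n 0 1) (-n 0 1) (n 0 0) (by omega) (by omega) ?_
    push_cast
    linear_combination (n 0 1 : ℝ) * hb - m01 * hN
  · simp only [Fin.zero_eta, Fin.isValue, Fin.mk_one] at hij
    refine key (-n 1 0) (n 0 0) (-n 1 1) (n 1 0) (by omega) (by omega) ?_
    push_cast
    linear_combination (n 1 0 : ℝ) * hb - m10 * hN
  · simp only [Fin.isValue, Fin.mk_one] at hij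
    refine key (-n 1 1) (n 0 1) (-n 1 1) (n 1 0) (by omega) (by omega) ?_
    push_cast
    linear_combination (n 1 1 : ℝ) * hb - m11 * hN

theorem p_ne {s : ℕ} {p : Fin s → ℚ[X]} (hp : Independent p) (k : Fin s) : p k ≠ 0 := by
  classical
  intro h0
  have h1 := hp (fun j => if j = k then 1 else 0) (fun j => if j = k then 2 else 0) 1 (by
    rw [Finset.prod_eq_zero (Finset.mem_univ k) (by simp [h0]), Finset.prod_eq_zero (Finset.mem_univ k) (by simp [h0]),
      mul_zero])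
  have h2 := congrFun h1 k
  simp at h2

/-- the polynomial `± p_k` over `ℂ` -/
noncomputable def PC {s : ℕ} (p : Fin s → ℚ[X]) (e : Fin s → ℚ) (k : Fin s) : ℂ[X] :=
  (C (e k) * p k).map (algebraMap ℚ ℂ)

theorem ind_C {s : ℕ} {p : Fin s → ℚ[X]} (hp : Independent p) {e : Fin s → ℚ} (he : ∀ k, e k ≠ 0) (m n : Fin s → ℕ)
    (c : ℂ) (h : ∏ k, PC p e k ^ m k * (1 : ℂ[X]) ^ n k = C c * ∏ k, PC p e k ^ n k * (1 : ℂ[X]) ^ m k) : m = n := by
  classical
  have hprod : ∀ m : Fin s → ℕ, ∏ k, PC p e k ^ m k = (∏ k, (C (e k) * p k) ^ m k).map (algebraMap ℚ ℂ) := by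
    intro m
    rw [Polynomial.map_prod]
    refine Finset.prod_congr rfl fun k _ => ?_
    rw [Polynomial.map_pow]
    rfl
  simp only [one_pow, mul_one, hprod] at h
  set A := ∏ k, (C (e k) * p k) ^ m k with hA
  set B := ∏ k, (C (e k) * p k) ^ n k with hB
  have hB0 : B ≠ 0 := Finset.prod_ne_zero_iff.2 fun k _ =>
    pow_ne_zero _ (mul_ne_zero (by simpa using he k) (p_ne hp k))
  have hlB : (algebraMap ℚ ℂ) B.leadingCoeff ≠ 0 := by
    rw [Ne, map_eq_zero]
    exact leadingCoeff_ne_zero.2 hB0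
  have h1 := congrArg leadingCoeff h
  rw [leadingCoeff_mul, leadingCoeff_C, leadingCoeff_map, leadingCoeff_map] at h1
  have h2 : c = algebraMap ℚ ℂ (A.leadingCoeff / B.leadingCoeff) := by
    rw [map_div₀, eq_div_iff hlB, h1]
  have h3 : A = C (A.leadingCoeff / B.leadingCoeff) * B := by
    apply Polynomial.map_injective (algebraMap ℚ ℂ) (algebraMap ℚ ℂ).injective
    rw [h, Polynomial.map_mul, Polynomial.map_C, ← h2]
  have h4 : ∀ m : Fin s → ℕ, ∏ k, (C (e k) * p k) ^ m k = C (∏ k, e k ^ m k) * ∏ k, p k ^ m k := by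
    intro m
    rw [map_prod, ← Finset.prod_mul_distrib]
    refine Finset.prod_congr rfl fun k _ => ?_
    rw [mul_pow, C_pow]
  have h5 : ∀ m : Fin s → ℕ, ∏ k, e k ^ m k ≠ 0 := fun m => Finset.prod_ne_zero_iff.2 fun k _ => pow_ne_zero _ (he k)
  rw [hA, hB, h4, h4] at h3
  apply hp m n ((∏ k, e k ^ m k)⁻¹ * ((C (∏ k, e k ^ m k) * ∏ k, p k ^ m k).leadingCoeff /
    (C (∏ k, e k ^ n k) * ∏ k, p k ^ n k).leadingCoeff) * ∏ k, e k ^ n k)
  rw [C_mul, C_mul, mul_assoc, mul_assoc, ← h3, ← mul_assoc, ← C_mul, inv_mul_cancel₀ (h5 m), C_1, one_mul]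

/-- the branches of the logarithms -/
noncomputable def LC {s : ℕ} (p : Fin s → ℚ[X]) (e : Fin s → ℚ) (k : Fin s) (z : ℂ) : ℂ :=
  Complex.log ((PC p e k).eval z)

/-- a good disc -/
def Disc {s : ℕ} (p : Fin s → ℚ[X]) (e : Fin s → ℚ) (c r : ℚ) : Prop :=
  Independent p ∧ (∀ k, e k ≠ 0) ∧ 0 < r ∧
    ∀ k, ∀ z ∈ Metric.ball ((c : ℝ) : ℂ) (r : ℝ), 0 < ((PC p e k).eval z).re

/-- the theorem on a disc -/
theorem onDisc {s g : ℕ} (p : Fin s → ℚ[X]) (e : Fin s → ℚ) (c r : ℚ) (q : Fin g → ℚ) :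
    ∃ E : Set ℂ, dimH E = 0 ∧ (Disc p e c r → ∀ x : ℝ, (x : ℂ) ∈ Metric.ball ((c : ℝ) : ℂ) (r : ℝ) → (x : ℂ) ∉ E →
      ∀ (A : ℕ) (ω : ℝ), 0 < ω → ∃ B T₁ : ℝ, ∀ T : ℝ, T₁ ≤ T → ∀ t : ℚ, Size ℚ T t →
          ‖((algebraMap ℚ ℂ) t) - x‖ ≤ T ^ (-ω) → ¬ Pool.Agent.X39.Near.Dependent (LC p e)
            (fun k : Fin 0 => k.elim0) 1 (fun b => ((Real.log (q b) : ℝ) : ℂ)) ℚ (algebraMap ℚ ℂ) 2 A B T t) := by
  classical
  by_cases h : Disc p e c r
  · obtain ⟨h1, h2, h3, h4⟩ := h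
    have han : ∀ k, AnalyticOnNhd ℂ (LC p e k) (Metric.ball ((c : ℝ) : ℂ) (r : ℝ)) := by
      intro k z hz
      refine AnalyticAt.clog ?_ (Or.inl (h4 k z hz))
      exact (PC p e k).differentiable.analyticAt z
    have hind : Pool.Agent.X255.RH.Indep (Metric.ball ((c : ℝ) : ℂ) (r : ℝ)) (LC p e) := by
      refine Pool.Agent.X255.RH.logR_indep (convex_ball _ _).isPreconnected Metric.isOpen_ball
        (Metric.nonempty_ball.2 (by exact_mod_cast h3)) (PC p e) (fun _ => 1) (fun k h0 => ?_) (fun _ => one_ne_zero)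
        (ind_C h1 h2) (LC p e) han fun k z hz => ?_
      · have := h4 k _ (Metric.mem_ball_self (by exact_mod_cast h3))
        rw [h0, eval_zero, Complex.zero_re] at this
        exact lt_irrefl _ this
      · have hne : (PC p e k).eval z ≠ 0 := by
          intro h0
          have := h4 k z hz
          rw [h0, Complex.zero_re] at this
          exact lt_irrefl _ this
        rw [LC, Complex.exp_log hne]
        simp
    obtain ⟨E, e1, e2, -⟩ := Pool.Agent.X39.Near.master_indep (q := 0) _ Metric.isOpen_ball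
      (convex_ball _ _).isPreconnected (LC p e) han hind (fun k : Fin 0 => k.elim0) 1 (by simp)
      (fun b => ((Real.log (q b) : ℝ) : ℂ))
    exact ⟨E, e1, fun _ x hx hxE A ω hω => e2 x hx hxE ℚ (algebraMap ℚ ℂ) 2 A ω hω⟩
  · exact ⟨∅, dimH_empty, fun h' => absurd h' h⟩

/-- the index set -/
def Ix : Type := Σ s g : ℕ, (Fin s → ℚ[X]) × (Fin s → ℚ) × ℚ × ℚ × (Fin g → ℚ)

instance : Countable Ix := by
  have : Countable ℚ[X] := by
    rw [← Cardinal.mk_le_aleph0_iff]
    exact Polynomial.cardinalMk_le_max.trans (by simp)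
  unfold Ix
  infer_instance

theorem log_number {g s : ℕ} {q : Fin g → ℚ} (hq : ∀ b, 0 < q b) {p : Fin s → ℚ[X]} {z : ℚ}
    (hz : ∀ k, (p k).eval z ≠ 0) (m : Fin g → ℤ) (n : Fin s → ℤ) :
    Real.log (number q p z m n) = ∑ b, m b * Real.log (q b) + ∑ k, n k * Real.log |((p k).eval z : ℚ)| := by
  unfold number
  push_cast
  rw [Real.log_mul, Real.log_prod, Real.log_prod]
  · congr 1
    · exact Finset.sum_congr rfl fun b _ => by rw [Real.log_zpow]
    · exact Finset.sum_congr rfl fun b _ => by rw [Real.log_zpow]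
  · intro k _
    exact zpow_ne_zero _ (abs_ne_zero.2 (by exact_mod_cast hz k))
  · intro b _
    exact zpow_ne_zero _ (by exact_mod_cast (hq b).ne')
  · exact Finset.prod_ne_zero_iff.2 fun b _ => zpow_ne_zero _ (by exact_mod_cast (hq b).ne')
  · exact Finset.prod_ne_zero_iff.2 fun k _ => zpow_ne_zero _ (abs_ne_zero.2 (by exact_mod_cast hz k))

/-- on a good disc the branch is the real logarithm -/
theorem LC_real {s : ℕ} {p : Fin s → ℚ[X]} {e : Fin s → ℚ} (he : ∀ k, |e k| = 1) {k : Fin s} {z : ℚ}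
    (h : 0 < ((PC p e k).eval ((algebraMap ℚ ℂ) z)).re) :
    (p k).eval z ≠ 0 ∧ LC p e k ((algebraMap ℚ ℂ) z) = ((Real.log |((p k).eval z : ℚ)| : ℝ) : ℂ) := by
  have h1 : (PC p e k).eval ((algebraMap ℚ ℂ) z) = (((e k * (p k).eval z : ℚ) : ℝ) : ℂ) := by
    rw [PC, Polynomial.eval_map_algebraMap, Polynomial.aeval_algebraMap_apply]
    simp
  rw [h1, Complex.ofReal_re] at h
  have h2 : 0 < e k * (p k).eval z := by exact_mod_cast h
  have h3 : e k * (p k).eval z = |(p k).eval z| := by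
    rw [← abs_of_pos h2, abs_mul, he, one_mul]
  refine ⟨fun h0 => by rw [h0, mul_zero] at h2; exact lt_irrefl _ h2, ?_⟩
  rw [LC, h1, h3, ← Complex.ofReal_log (by positivity)]
  simp

/-- **Theorem.** There is a set `E` of real numbers of Hausdorff dimension `0` such that for all real `x` outside `E`, all
rational polynomials `p_1, …, p_s` multiplicatively independent modulo constants, all positive rational numbers
`q_1, …, q_g`, all `A` and `ω > 0` there is `T₁` such that for all `T ≥ T₁` and ALL rational `z` with numerator and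
denominator of absolute value at most `T` and `|z - x| ≤ T ^ (-ω)`, the four exponentials conjecture is true for all
`2 × 2` matrices of numbers `∏ q_b ^ m_b ∏ |p_k (z)| ^ n_k` with exponents of absolute value at most `T ^ A`, if not all
the `n` are `0`. -/
theorem result : ∃ E : Set ℝ, dimH E = 0 ∧ ∀ x : ℝ, x ∉ E → ∀ (s g : ℕ) (p : Fin s → ℚ[X]) (q : Fin g → ℚ),
    Independent p → (∀ b, 0 < q b) → ∀ (A : ℕ) (ω : ℝ), 0 < ω → ∃ T₁ : ℝ, ∀ T : ℝ, T₁ ≤ T → ∀ z : ℚ,
      |(z.num : ℝ)| ≤ T → (z.den : ℝ) ≤ T → |(z : ℝ) - x| ≤ T ^ (-ω) →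
      ∀ (m : Fin 2 → Fin 2 → Fin g → ℤ) (n : Fin 2 → Fin 2 → Fin s → ℤ),
        (∀ i j b, |(m i j b : ℝ)| ≤ T ^ A) → (∀ i j k, |(n i j k : ℝ)| ≤ T ^ A) → (∃ i j k, n i j k ≠ 0) →
        FourExponentials fun i j => (number q p z (m i j) (n i j) : ℝ) := by
  classical
  choose E hE0 hE using fun i : Ix => onDisc i.2.2.1 i.2.2.2.1 i.2.2.2.2.1 i.2.2.2.2.2.1 i.2.2.2.2.2.2
  have hiso : Isometry (Complex.ofReal : ℝ → ℂ) := Complex.isometry_ofReal
  refine ⟨{x : ℝ | IsAlgebraic ℚ x} ∪ ⋃ i : Ix, Complex.ofReal ⁻¹' E i, ?_, ?_⟩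
  · rw [dimH_union, dimH_iUnion]
    have h1 : dimH {x : ℝ | IsAlgebraic ℚ x} = 0 := Set.Countable.dimH_zero (Algebraic.countable ℚ ℝ)
    have h2 : ∀ i, dimH (Complex.ofReal ⁻¹' E i : Set ℝ) = 0 := by
      intro i
      rw [← hiso.dimH_image]
      exact le_antisymm ((dimH_mono (Set.image_preimage_subset _ _)).trans (hE0 i).le) bot_le
    rw [h1]
    simp [h2]
  intro x hx s g p q hp hq A ω hω
  have hxt : ¬ IsAlgebraic ℚ x := fun h => hx (Or.inl h)
  have hxE : ∀ i, (x : ℂ) ∉ E i := fun i hi => hx (Or.inr (Set.mem_iUnion.2 ⟨i, hi⟩))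
  have hpx : ∀ k, Polynomial.aeval x (p k) ≠ 0 := fun k h0 => hxt ⟨p k, p_ne hp k, h0⟩
  set e : Fin s → ℚ := fun k => if 0 < Polynomial.aeval x (p k) then 1 else -1 with he
  have he1 : ∀ k, |e k| = 1 := by
    intro k
    simp only [he]
    split_ifs <;> simp
  have he0 : ∀ k, e k ≠ 0 := by
    intro k h0
    have := he1 k
    rw [h0, abs_zero] at this
    exact zero_ne_one this
  have hre : ∀ k, 0 < ((PC p e k).eval (x : ℂ)).re := by
    intro k
    have h1 : (PC p e k).eval (x : ℂ) = (((e k : ℝ) * Polynomial.aeval x (p k) : ℝ) : ℂ) := by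
      rw [PC, Polynomial.eval_map_algebraMap, map_mul, Polynomial.aeval_C]
      have h2 : Polynomial.aeval (x : ℂ) (p k) = ((Polynomial.aeval x (p k) : ℝ) : ℂ) :=
        Polynomial.aeval_algebraMap_apply ℂ x (p k)
      rw [h2]
      push_cast
      rfl
    rw [h1, Complex.ofReal_re]
    simp only [he]
    split_ifs with h2
    · simpa using h2
    · have := lt_of_le_of_ne (not_lt.1 h2) (hpx k)
      push_cast
      linarith
  -- a good disc
  have hopen : IsOpen (⋂ k, {z : ℂ | 0 < ((PC p e k).eval z).re}) :=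
    isOpen_iInter_of_finite fun k => isOpen_lt continuous_const
      (Complex.continuous_re.comp (PC p e k).continuous)
  obtain ⟨δ, hδ, hδU⟩ := Metric.isOpen_iff.1 hopen (x : ℂ) (Set.mem_iInter.2 hre)
  obtain ⟨r, hr0, hr⟩ := exists_rat_btwn (half_pos hδ)
  obtain ⟨c, hc1, hc2⟩ := exists_rat_btwn (show x - r < x by linarith)
  have hxc : dist (x : ℂ) ((c : ℝ) : ℂ) < r := by
    rw [Complex.dist_eq, ← Complex.ofReal_sub, Complex.norm_real, Real.norm_eq_abs, abs_lt]
    constructor <;> linarith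
  have hball : ∀ z ∈ Metric.ball ((c : ℝ) : ℂ) (r : ℝ), ∀ k, 0 < ((PC p e k).eval z).re := by
    intro z hz k
    have h1 : z ∈ Metric.ball (x : ℂ) δ := by
      rw [Metric.mem_ball] at hz ⊢
      calc dist z x ≤ dist z ((c : ℝ) : ℂ) + dist ((c : ℝ) : ℂ) x := dist_triangle _ _ _
        _ < r + r := add_lt_add hz (by rw [dist_comm]; exact hxc)
        _ < δ := by linarith
    exact Set.mem_iInter.1 (hδU h1) k
  have hdisc : Disc p e c r := ⟨hp, he0, by exact_mod_cast hr0, fun k z hz => hball z hz k⟩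
  obtain ⟨B, T₁, hB⟩ := hE ⟨s, g, p, e, c, r, q⟩ hdisc x hxc (hxE _) (2 * A + 1) ω hω
  -- points close to `x` are in the disc
  obtain ⟨T₂, hT₂⟩ : ∃ T₂ : ℝ, ∀ T : ℝ, T₂ ≤ T → T ^ (-ω) < r - dist (x : ℂ) ((c : ℝ) : ℂ) := by
    have h1 := (tendsto_rpow_neg_atTop hω).eventually (gt_mem_nhds (show 0 < r - dist (x : ℂ) ((c : ℝ) : ℂ) by linarith))
    obtain ⟨T₂, h2⟩ := Filter.eventually_atTop.1 h1
    exact ⟨T₂, h2⟩
  refine ⟨max (max T₁ T₂) (2 * (g + s + 1 : ℕ) ^ 2), fun T hT z hz1 hz2 hzx m n hm hn hn0 => ?_⟩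
  have hTa : T₁ ≤ T := (le_max_left _ _).trans ((le_max_left _ _).trans hT)
  have hTb : T₂ ≤ T := (le_max_right _ _).trans ((le_max_left _ _).trans hT)
  have hTc : (2 * (g + s + 1 : ℕ) ^ 2 : ℝ) ≤ T := (le_max_right _ _).trans hT
  have hT0 : 0 < T := lt_of_lt_of_le (by positivity) hTc
  have hzz : (algebraMap ℚ ℂ) z = ((z : ℝ) : ℂ) := by simp
  have hnorm : ‖((algebraMap ℚ ℂ) z) - x‖ ≤ T ^ (-ω) := by
    rw [hzz, ← Complex.ofReal_sub, Complex.norm_real, Real.norm_eq_abs]
    exact hzx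
  have hzb : (algebraMap ℚ ℂ) z ∈ Metric.ball ((c : ℝ) : ℂ) (r : ℝ) := by
    rw [Metric.mem_ball]
    have h1 := hT₂ T hTb
    calc dist ((algebraMap ℚ ℂ) z) ((c : ℝ) : ℂ) ≤ dist ((algebraMap ℚ ℂ) z) x + dist (x : ℂ) ((c : ℝ) : ℂ) :=
          dist_triangle _ _ _
      _ < r := by rw [dist_eq_norm]; linarith
  have hLC := fun k => LC_real he1 (hball _ hzb k)
  have hnd := hB T hTa z (Pool.Agent.X39.Near.size_rat hz1 hz2) hnorm
  have hlog : ∀ i j, Real.log (number q p z (m i j) (n i j)) = ∑ b, m i j b * Real.log (q b) +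
      ∑ k, n i j k * Real.log |((p k).eval z : ℚ)| := fun i j => log_number hq (fun k => (hLC k).1) _ _
  intro hrow hcol hdet
  obtain ⟨i₀, j₀, k₀, hn0⟩ := hn0
  have hcast : ∀ v : ℤ, (algebraMap ℚ ℂ) (((v : ℤ) : 𝓞 ℚ) : ℚ) = ((v : ℝ) : ℂ) := fun v => by simp
  have hent : ∀ (t : ℝ) (i j : Fin 2), ∑ b, ((Real.log (q b) : ℝ) : ℂ) * (algebraMap ℚ ℂ) (((m i j b : ℤ) : 𝓞 ℚ) : ℚ) +
      ∑ k, (((Real.log |((p k).eval z : ℚ)| : ℝ) : ℂ) + if k = k₀ then (t : ℂ) else 0) *
        (algebraMap ℚ ℂ) (((n i j k : ℤ) : 𝓞 ℚ) : ℚ) =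
      ((Real.log (number q p z (m i j) (n i j)) + t * n i j k₀ : ℝ) : ℂ) := by
    intro t i j
    rw [hlog]
    simp only [hcast, add_mul, Finset.sum_add_distrib, ite_mul, zero_mul, Finset.sum_ite_eq', Finset.mem_univ, if_true]
    push_cast
    rw [add_assoc]
    congr 1
    · exact Finset.sum_congr rfl fun b _ => mul_comm _ _
    · congr 1
      exact Finset.sum_congr rfl fun b _ => mul_comm _ _
  have hent0 : ∀ i j : Fin 2, ∑ b, ((Real.log (q b) : ℝ) : ℂ) * (algebraMap ℚ ℂ) (((m i j b : ℤ) : 𝓞 ℚ) : ℚ) +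
      ∑ k, LC p e k ((algebraMap ℚ ℂ) z) * (algebraMap ℚ ℂ) (((n i j k : ℤ) : 𝓞 ℚ) : ℚ) =
      ((Real.log (number q p z (m i j) (n i j)) : ℝ) : ℂ) := by
    intro i j
    have h1 := hent 0 i j
    simp only [Complex.ofReal_zero, ite_self, add_zero, zero_mul] at h1
    rw [← h1]
    congr 1
    exact Finset.sum_congr rfl fun k _ => by rw [(hLC k).2]
  have hall := Pool.Agent.X39.Near.det_of_notDep (LC p e) (fun k : Fin 0 => k.elim0) 1
    (fun b => ((Real.log (q b) : ℝ) : ℂ)) ℚ (algebraMap ℚ ℂ) hnd hT0 (n := 2) le_rfl (R := T ^ A) (by positivity) ?_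
    (fun i j b => ((m i j b : ℤ) : 𝓞 ℚ)) (fun i j k => ((n i j k : ℤ) : 𝓞 ℚ)) ?_ ?_ ?_
  · refine pencil (a := fun i j => (number q p z (m i j) (n i j) : ℝ)) (fun i j => n i j k₀) ?_ hdet ?_ hrow hcol
    · intro h0
      exact hn0 (congrFun (congrFun h0 i₀) j₀)
    · intro t
      have h1 := hall fun k => ((Real.log |((p k).eval z : ℚ)| : ℝ) : ℂ) + if k = k₀ then (t : ℂ) else 0
      rw [Matrix.det_fin_two] at h1
      simp only [Matrix.of_apply, hent] at h1
      exact_mod_cast h1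
  · rw [Fintype.card_fin, Real.rpow_natCast]
    calc ((Nat.factorial 2 : ℕ) : ℝ) * ((g + s + 1 : ℕ) * T ^ A) ^ 2 = (2 * (g + s + 1 : ℕ) ^ 2) * T ^ (2 * A) := by
          rw [mul_pow, ← pow_mul, Nat.factorial_two]
          push_cast
          ring
      _ ≤ T * T ^ (2 * A) := mul_le_mul_of_nonneg_right hTc (by positivity)
      _ = T ^ (2 * A + 1) := by rw [pow_succ]; ring
  · intro i j b φ
    simpa using hm i j b
  · intro i j b φ
    simpa using hn i j b
  · rw [Matrix.det_fin_two]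
    simp only [Matrix.of_apply]
    rw [hent0, hent0, hent0, hent0]
    exact_mod_cast hdet

end Pool.Agent.Results.MP_bbc1fa_nt.ApproximationsOfAllNumbers
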