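import Mathlib
import Pool.Agent.X142.DN.Four2

/-!
# The four exponentials conjecture for rational numbers: few exceptional matrices

For every finite set `A` of positive rational numbers of height at most `X` at most
`C X^ε |A|^2` of the `|A|^4` matrices `(log a_ij)` with `a_ij ∈ A` have a determinant of absolute
value at most `X^{-w}`; for a fixed first column with multiplicatively independent entries there are
at most `C X^ε` second columns of height at most `X`.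
-/

set_option autoImplicit false

namespace Pool.Agent.Results.MP_bbc1fa_nt.FixedColumn

open Finset

/-- The matrix of logarithms of the entries of a rational matrix. -/
noncomputable def logMatrix (M : Matrix (Fin 2) (Fin 2) ℚ) : Matrix (Fin 2) (Fin 2) ℝ :=
  Matrix.of fun i j => Real.log (M i j : ℝ)

/-- `r` is positive and its numerator and denominator are at most `X`. -/
def Height (X : ℕ) (r : ℚ) : Prop := 0 < r ∧ r.num ≤ X ∧ r.den ≤ X

/-- For every `ε > 0` there are `w` and `C` such that for every integer `X ≥ 1`: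
(1) if `a, b` are positive rational numbers of height at most `X` which are multiplicatively
independent, then at most `C X^ε` pairs `(c, e)` of positive rational numbers of height at most `X`
satisfy `|log a log e - log b log c| ≤ X^{-w}`;
(2) if `A` is a finite set of positive rational numbers of height at most `X`, then at most
`C X^ε |A|^2` of the matrices `(a_ij)` with entries in `A` satisfy `|det (log a_ij)| ≤ X^{-w}`;
(3) at most `C X^(2 + ε)` of the matrices of integers `1 ≤ a_ij ≤ X` satisfy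
`|det (log a_ij)| ≤ X^{-w}`. -/
theorem result (ε : ℝ) (hε : 0 < ε) : ∃ w C : ℝ, ∀ X : ℕ, 1 ≤ X →
    (∀ a b : ℚ, Height X a → Height X b → (∀ u v : ℤ, a ^ u * b ^ v = 1 → u = 0 ∧ v = 0) →
      (({p : ℚ × ℚ | Height X p.1 ∧ Height X p.2 ∧
        |(logMatrix !![a, p.1; b, p.2]).det| ≤ (X : ℝ) ^ (-w)}.ncard : ℕ) : ℝ) ≤
          C * (X : ℝ) ^ ε) ∧
    (∀ A : Finset ℚ, (∀ a ∈ A, Height X a) →
      (({M : Matrix (Fin 2) (Fin 2) ℚ | (∀ i j, M i j ∈ A) ∧
        |(logMatrix M).det| ≤ (X : ℝ) ^ (-w)}.ncard : ℕ) : ℝ) ≤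
          C * (X : ℝ) ^ ε * (A.card : ℝ) ^ 2) ∧
    ((({M : Matrix (Fin 2) (Fin 2) ℚ | (∀ i j, ∃ n : ℕ, 1 ≤ n ∧ n ≤ X ∧ M i j = n) ∧
        |(logMatrix M).det| ≤ (X : ℝ) ^ (-w)}.ncard : ℕ) : ℝ) ≤ C * (X : ℝ) ^ (2 + ε)) := by
  classical
  obtain ⟨D, w1, C1, hD, hw1, hC1, h1⟩ := Pool.Agent.X142.DN.fiber ε hε
  obtain ⟨w2, C2, hC2, h2⟩ := Pool.Agent.X142.DN.energy ε hε
  refine ⟨((w1 + w2 : ℕ) : ℝ), C1 + C2, ?_⟩
  intro X hX
  have hXr : (1 : ℝ) ≤ X := by exact_mod_cast hX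
  have hX0 : (0 : ℝ) < X := by linarith
  have hXε : 1 ≤ (X : ℝ) ^ ε := Real.one_le_rpow hXr hε.le
  have hw : ∀ v : ℕ, v ≤ w1 + w2 → (X : ℝ) ^ (-((w1 + w2 : ℕ) : ℝ)) ≤ ((X : ℝ) ^ v)⁻¹ := by
    intro v hv
    rw [Real.rpow_neg hX0.le, Real.rpow_natCast]
    exact inv_anti₀ (by positivity) (pow_le_pow_right₀ hXr hv)
  have hdet : ∀ M : Matrix (Fin 2) (Fin 2) ℚ, (logMatrix M).det =
      Pool.Agent.X142.DN.dt (M 0 0) (M 0 1) (M 1 0) (M 1 1) := by
    intro M
    rw [Matrix.det_fin_two]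
    rfl
  have hA : ∀ A : Finset ℚ, (∀ a ∈ A, Height X a) →
      (({M : Matrix (Fin 2) (Fin 2) ℚ | (∀ i j, M i j ∈ A) ∧
        |(logMatrix M).det| ≤ (X : ℝ) ^ (-((w1 + w2 : ℕ) : ℝ))}.ncard : ℕ) : ℝ) ≤
          C2 * (X : ℝ) ^ ε * (A.card : ℝ) ^ 2 := by
    intro A hA
    set Z : Set (Matrix (Fin 2) (Fin 2) ℚ) := {M | (∀ i j, M i j ∈ A) ∧
        |(logMatrix M).det| ≤ (X : ℝ) ^ (-((w1 + w2 : ℕ) : ℝ))} with hZ
    set f : Matrix (Fin 2) (Fin 2) ℚ → ℚ × ℚ × ℚ × ℚ := fun M => (M 0 0, M 1 0, M 0 1, M 1 1) with hf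
    have hinj : Function.Injective f := by
      intro M M' h
      have h' : (M 0 0, M 1 0, M 0 1, M 1 1) = (M' 0 0, M' 1 0, M' 0 1, M' 1 1) := h
      simp only [Prod.mk.injEq] at h'
      obtain ⟨e1, e2, e3, e4⟩ := h'
      ext i j
      fin_cases i <;> fin_cases j <;> assumption
    have hfin : (f '' Z).Finite := by
      refine (Finset.finite_toSet (A ×ˢ A ×ˢ A ×ˢ A)).subset ?_
      rintro _ ⟨M, hM, rfl⟩
      rw [Finset.mem_coe, Finset.mem_product, Finset.mem_product, Finset.mem_product]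
      exact ⟨hM.1 0 0, hM.1 1 0, hM.1 0 1, hM.1 1 1⟩
    rw [← Set.ncard_image_of_injective Z hinj, Set.ncard_eq_toFinset_card _ hfin]
    refine h2 X hX A hA hfin.toFinset ?_
    intro q hq
    obtain ⟨M, hM, rfl⟩ := hfin.mem_toFinset.1 hq
    refine ⟨⟨hM.1 0 0, hM.1 1 0, hM.1 0 1, hM.1 1 1⟩, ?_⟩
    have h3 := hM.2
    rw [hdet] at h3
    exact h3.trans (hw w2 (by omega))
  refine ⟨?_, ?_, ?_⟩
  · intro a b ha hb hab
    set Z : Set (ℚ × ℚ) := {p | Height X p.1 ∧ Height X p.2 ∧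
        |(logMatrix !![a, p.1; b, p.2]).det| ≤ (X : ℝ) ^ (-((w1 + w2 : ℕ) : ℝ))} with hZ
    have hno : Pool.Agent.X142.DN.NoRel D a b := by
      intro u v _ _ huv h
      exact huv (hab u v h)
    have hT : ∀ T : Finset (ℚ × ℚ), (∀ p ∈ T, p ∈ Z) → (T.card : ℝ) ≤ (C1 + C2) * (X : ℝ) ^ ε := by
      intro T hT
      have h3 := h1 X hX a b ha hb hno T (by
        intro p hp
        obtain ⟨g1, g2, g3⟩ := hT p hp
        rw [hdet] at g3
        exact ⟨g1, g2, g3.trans (hw w1 (by omega))⟩)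
      nlinarith
    by_cases hfin : Z.Finite
    · rw [Set.ncard_eq_toFinset_card _ hfin]
      exact hT _ fun p hp => hfin.mem_toFinset.1 hp
    · rw [Set.Infinite.ncard hfin]
      simp
      positivity
  · intro A hAX
    refine (hA A hAX).trans ?_
    have h3 : 0 ≤ C1 * (X : ℝ) ^ ε * (A.card : ℝ) ^ 2 := by positivity
    nlinarith
  · set A : Finset ℚ := (Finset.Icc 1 X).image (fun n : ℕ => (n : ℚ)) with hAdef
    have hcard : A.card = X := by
      rw [hAdef, Finset.card_image_of_injective _ Nat.cast_injective, Nat.card_Icc,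
        Nat.add_sub_cancel]
    have hmem : ∀ a : ℚ, a ∈ A ↔ ∃ n : ℕ, 1 ≤ n ∧ n ≤ X ∧ a = n := by
      intro a
      rw [hAdef, Finset.mem_image]
      constructor
      · rintro ⟨n, hn, rfl⟩
        exact ⟨n, (Finset.mem_Icc.1 hn).1, (Finset.mem_Icc.1 hn).2, rfl⟩
      · rintro ⟨n, h3, h4, rfl⟩
        exact ⟨n, Finset.mem_Icc.2 ⟨h3, h4⟩, rfl⟩
    have h3 := hA A (by
      intro a ha
      obtain ⟨n, hn1, hnX, rfl⟩ := (hmem a).1 ha
      refine ⟨by exact_mod_cast hn1, ?_, ?_⟩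
      · rw [Rat.num_natCast]
        exact_mod_cast hnX
      · rw [Rat.den_natCast]
        exact hX)
    rw [hcard] at h3
    have h4 : {M : Matrix (Fin 2) (Fin 2) ℚ | (∀ i j, ∃ n : ℕ, 1 ≤ n ∧ n ≤ X ∧ M i j = n) ∧
        |(logMatrix M).det| ≤ (X : ℝ) ^ (-((w1 + w2 : ℕ) : ℝ))} =
        {M : Matrix (Fin 2) (Fin 2) ℚ | (∀ i j, M i j ∈ A) ∧
        |(logMatrix M).det| ≤ (X : ℝ) ^ (-((w1 + w2 : ℕ) : ℝ))} := by
      ext M
      simp only [Set.mem_setOf_eq, hmem]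
    rw [h4]
    refine h3.trans ?_
    have h5 : (X : ℝ) ^ (2 + ε) = (X : ℝ) ^ 2 * (X : ℝ) ^ ε := by
      rw [Real.rpow_add hX0]
      norm_num
    rw [h5]
    have h6 : 0 ≤ C1 * ((X : ℝ) ^ 2 * (X : ℝ) ^ ε) := by positivity
    nlinarith

end Pool.Agent.Results.MP_bbc1fa_nt.FixedColumn
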