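import Pool.Agent.X119.MilTrB
import Pool.Agent.X119.MilTrE

/-!
# The four exponentials property for the integers of Mills-type sequences

For every real `c > 1` and every given sequence `w` of complex numbers the following holds for a set of numbers `θ` of
Hausdorff dimension `1`, with `a_n = ⌊θ ^ (c ^ n)⌋`. For all `q`, `m`, `D` there is `N` such that for all number fields `K`
of degree at most `D` and all distinct `k_1, …, k_m ≥ N`: every matrix of size `2` with `K`-linearly independent rows,
`K`-linearly independent columns and entries in the `K`-span of `1`, `w_0, …, w_{q-1}`, `log a_{k_1}, …, log a_{k_m}`, not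
all in the span of `1, w_0, …, w_{q-1}`, is nonsingular.

For `q = 0`, `D = 1` the question Q1 has a positive answer for all the matrices whose entries are logarithms of elements of
the group generated by any `m` numbers `a_k`, `k ≥ N (m)`. The `w_j` may be the logarithms of all the primes.

Proof. By the theorem of the window (`Pool.Agent.Y916.Al.windowP`) few numbers of a window have a logarithm which is a root
of a polynomial of bounded degree over the field generated by given numbers. The theorem on Mills-type sequences in which the
property of the new term may depend on all the earlier terms (`Pool.Agent.X119.Mil.mills_hist`) gives sequences without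
relations of bounded degree. The theorem for matrices follows as in `Pool.Agent.Y921.FE`.
-/

set_option autoImplicit false

namespace Pool.Agent.Results.MP_bbc1fa_nt.MillsIntegers

/-- For all `c > 1`, all sequences `w` of complex numbers and all open sets `U` which meet `(1, ∞)` the set of the following
`θ ∈ U` has Hausdorff dimension `1`: for all `q`, `m`, `D` there is `N` such that for all number fields `K` of degree at most
`D` and all distinct `k_1, …, k_m ≥ N` every matrix `M` of size `2` with entries in the `K`-span of `1`, `w_0, …, w_{q-1}`
and of the logarithms of the numbers `⌊θ ^ (c ^ k_i)⌋`, not all in the `K`-span of `1`, `w_0, …, w_{q-1}`, with `K`-linearly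
independent rows and `K`-linearly independent columns has a nonzero determinant. -/
theorem result (c : ℝ) (hc : 1 < c) (w : ℕ → ℂ) (U : Set ℝ) (hU : IsOpen U) (hne : (U ∩ Set.Ioi 1).Nonempty) :
    dimH {θ : ℝ | θ ∈ U ∧ 1 < θ ∧ ∀ q m D : ℕ, ∃ N : ℕ,
      ∀ K : IntermediateField ℚ ℂ, FiniteDimensional ℚ K → Module.finrank ℚ K ≤ D →
      ∀ k : Fin m → ℕ, Function.Injective k → (∀ i, N ≤ k i) →
      ∀ M : Matrix (Fin 2) (Fin 2) ℂ, (∀ i j, M i j ∈ Submodule.span K (insert 1 (w '' Set.Iio q)) ⊔
          Submodule.span K (Set.range fun i => ((Real.log (⌊θ ^ (c ^ k i)⌋₊ : ℕ) : ℝ) : ℂ))) →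
        (∃ i j, M i j ∉ Submodule.span K (insert 1 (w '' Set.Iio q))) →
        LinearIndependent K (fun i : Fin 2 => fun j : Fin 2 => M i j) →
        LinearIndependent K (fun j : Fin 2 => fun i : Fin 2 => M i j) → M.det ≠ 0} = 1 := by
  have key := Pool.Agent.X119.MilTr.mills_logs Pool.Agent.X119.MilTr.win c hc (fun _ => True)
    (Pool.Agent.X119.MilTr.int_mills c hc) (Pool.Agent.X119.MilTr.wprod w) U hU hne
  apply le_antisymm
  · refine (dimH_mono (Set.subset_univ _)).trans ?_
    rw [Real.dimH_univ]
  · rw [← key]
    apply dimH_mono
    rintro θ ⟨h1, h2, -, h3⟩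
    exact ⟨h1, h2, fun q m D => Pool.Agent.X119.MilTr.fourexp_of_free h3 q m D⟩

end Pool.Agent.Results.MP_bbc1fa_nt.MillsIntegers
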