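import Pool.Agent.Results.MP_bbc1fa_nt.AlmostAllTuples
import Pool.Agent.X174.WinRat

/-!
# Determinants of logarithms of the products of `u_j + x_i N` for ALL tuples `u` in cubes around thin sequences

Let `x_1, …, x_k` be distinct rational numbers, `a < b` with `a + x_i > 0`, `n ≥ 1`, `A ≥ 0` and
`β > 1 - 1 / (3 ^ (k n) + 1)`. There is `B` such that for every sequence `N_i ≥ 1` of integers of exponent of convergence
at most `τ` (for `N_i = i ^ t` this is `1 / t`, for `N_i = b ^ i` it is `0`) and `ρ < 1`, outside a set of `α ∈ ℝ^n` of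
Hausdorff dimension at most `(n - 1 + β + τ) / (1 - ρ)`, for all but finitely many `i` and ALL `n`-tuples of integers
`u_j ∈ [a N_i, b N_i]` in the cube `|u_j - α_j N_i| ≤ N_i ^ ρ`: every `2 × 2` matrix with `ℚ`-linearly independent rows and
columns, whose entries are the logarithms of products of powers of `N_i` and of the `k n` integers `u_j + x_i N_i` with
exponents at most `N_i ^ A`, has a determinant of absolute value larger than `N_i ^ (-B)`.

The number of exceptions is from the starting result `AlmostAllTuples`.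
-/

set_option autoImplicit false

namespace Pool.Agent.Results.MP_bbc1fa_nt.TuplesInCubes

open AlmostAllTuples (Products logMatrix)

/-- the exponent of convergence of the sequence `v` is at most `τ` -/
def ExpLe (v : ℕ → ℝ) (τ : ℝ) : Prop := ∀ t : ℝ, τ < t → Summable (fun n : ℕ => (v n) ^ (-t))

/-- **Theorem.** Let `x_1, …, x_k` be distinct rational numbers, `a < b` real numbers with `a + x_i > 0` for all `i`,
`n ≥ 1`, `A ≥ 0` and `β > 1 - 1 / (3 ^ (k n) + 1)`. There is `B` such that for every sequence of integers `N_i ≥ 1` of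
exponent of convergence at most `τ ≥ 0` and every `ρ < 1` there is a set `E ⊂ ℝ^n` of Hausdorff dimension at most
`(n - 1 + β + τ) / (1 - ρ)` such that for each `α` outside `E`, for all but finitely many `i`: for ALL integers
`u_1, …, u_n ∈ [a N_i, b N_i]` with `|u_j - α_j N_i| ≤ N_i ^ ρ` for all `j`, every `2 × 2` matrix `(log α_(s,t))`, `α_(s,t)`
in `Products x N_i u (N_i ^ A)`, with `ℚ`-linearly independent rows and `ℚ`-linearly independent columns has a determinant
of absolute value larger than `N_i ^ (-B)`. The sequences `(i + 1) ^ a` and `b ^ i` have exponent of convergence at most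
`1 / a` and `0`. -/
theorem result :
    (∀ (n k : ℕ), 1 ≤ n → ∀ (x : Fin k → ℚ), Function.Injective x → ∀ (a b : ℝ), a < b → (∀ i, 0 < a + x i) →
      ∀ A β : ℝ, 0 ≤ A → 1 - 1 / ((3 : ℝ) ^ (k * n) + 1) < β →
      ∃ B : ℝ, ∀ (N : ℕ → ℕ) (τ ρ : ℝ), (∀ i, 1 ≤ N i) → 0 ≤ τ → ExpLe (fun i => (N i : ℝ)) τ → ρ < 1 →
      ∃ E : Set (Fin n → ℝ), dimH E ≤ ENNReal.ofReal (((n : ℝ) - 1 + β + τ) / (1 - ρ)) ∧
        ∀ α : Fin n → ℝ, α ∉ E → ∃ i₀ : ℕ, ∀ i : ℕ, i₀ ≤ i →
          ∀ u : Fin n → ℤ, (∀ j, a * N i ≤ u j ∧ u j ≤ b * N i) →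
            (∀ j, |(u j : ℝ) - α j * N i| ≤ (N i : ℝ) ^ ρ) →
            ∀ p : Matrix (Fin 2) (Fin 2) ℚ, (∀ s t, p s t ∈ Products x (N i) u ((N i : ℝ) ^ A)) →
              LinearIndependent ℚ (fun s : Fin 2 => fun t : Fin 2 => logMatrix p s t) →
              LinearIndependent ℚ (fun t : Fin 2 => fun s : Fin 2 => logMatrix p s t) →
              (N i : ℝ) ^ (-B) < |(logMatrix p).det|) ∧
    (∀ a : ℝ, 0 < a → ExpLe (fun n : ℕ => ((n : ℝ) + 1) ^ a) (1 / a)) ∧
    (∀ b : ℝ, 1 < b → ExpLe (fun n : ℕ => b ^ n) 0) := by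
  refine ⟨fun n k hn x hx a b hab hpos A β hA hβ => ?_, fun κ hκ => Pool.Agent.Y854.GM.expLe_pow κ hκ,
    fun b hb => Pool.Agent.Y854.GM.expLe_geom b hb⟩
  obtain ⟨B, C, h⟩ := AlmostAllTuples.result n k hn x hx a b hab hpos A β hA hβ
  have hn1 : (1 : ℝ) ≤ n := by exact_mod_cast hn
  have hβ0 : 0 ≤ (n : ℝ) - 1 + β := by
    have h1 : 1 / ((3 : ℝ) ^ (k * n) + 1) ≤ 1 := by
      rw [div_le_one (by positivity)]
      have h2 : (0 : ℝ) ≤ (3 : ℝ) ^ (k * n) := by positivity
      linarith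
    linarith
  refine ⟨B, fun N τ ρ hN hτ hE hρ => ?_⟩
  have hN1 : ∀ i, (1 : ℝ) ≤ (N i : ℝ) := fun i => by exact_mod_cast hN i
  obtain ⟨E, hE1, hE2⟩ := Pool.Agent.X174.windowsVecV (κ := Fin n) (T := Fin n → ℤ)
    (fun i => AlmostAllTuples.Exceptional n x a b A B (N i)) (fun _ u j => (u j : ℝ)) (v := fun i => (N i : ℝ))
    hN1 hτ hE hβ0 hρ (by
      intro ε hε
      refine ⟨|C|, 0, fun i _ => ⟨(h (N i) (hN i)).1, (h (N i) (hN i)).2.trans ?_⟩⟩
      calc C * (N i : ℝ) ^ ((n : ℝ) - 1 + β) ≤ |C| * (N i : ℝ) ^ ((n : ℝ) - 1 + β) :=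
            mul_le_mul_of_nonneg_right (le_abs_self C) (by positivity)
        _ ≤ |C| * (N i : ℝ) ^ ((n : ℝ) - 1 + β + ε) := mul_le_mul_of_nonneg_left
            (Real.rpow_le_rpow_of_exponent_le (hN1 i) (by linarith)) (abs_nonneg C))
  refine ⟨E, hE1, fun α hα => ?_⟩
  obtain ⟨i₀, hi₀⟩ := hE2 α hα
  refine ⟨i₀, fun i hi u hu hcube p hp hrow hcol => ?_⟩
  by_contra hcon
  push Not at hcon
  exact hi₀ i hi u ⟨hu, p, hp, hrow, hcol, hcon⟩ hcube

end Pool.Agent.Results.MP_bbc1fa_nt.TuplesInCubes
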